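import Mathlib

set_option autoImplicit false
set_option linter.unusedSectionVars false

namespace Y912.KB

open Filter Topology

variable {X : Type*} [NormedAddCommGroup X] [NormedSpace ℂ X] [CompleteSpace X]

/-- the inverse of `1 - w T` -/
noncomputable def V (T : X →L[ℂ] X) (w : ℂ) : X →L[ℂ] X := Ring.inverse (1 - w • T)

theorem commute_V (T : X →L[ℂ] X) (w : ℂ) : Commute T (V T w) := by
  unfold V
  by_cases h : IsUnit (1 - w • T)
  · obtain ⟨u, hu⟩ := h
    rw [← hu, Ring.inverse_unit]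
    have h1 : Commute T (u : X →L[ℂ] X) := by
      rw [hu]
      exact (Commute.one_right T).sub_right ((Commute.refl T).smul_right w)
    exact h1.units_inv_right
  · rw [Ring.inverse_non_unit _ h]
    exact Commute.zero_right T

theorem V_hasDerivAt (T : X →L[ℂ] X) (w : ℂ) (hu : IsUnit (1 - w • T)) :
    HasDerivAt (V T) (T * V T w ^ 2) w := by
  obtain ⟨u, hu⟩ := hu
  have h1 : HasDerivAt (fun w : ℂ => (1 : X →L[ℂ] X) - w • T) (-T) w := by
    have h := ((hasDerivAt_id w).smul_const T).const_sub (1 : X →L[ℂ] X)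
    simpa using h
  have h2 := hasFDerivAt_ringInverse (𝕜 := ℂ) u
  rw [hu] at h2
  have h3 := h2.comp_hasDerivAt w h1
  have e : (-ContinuousLinearMap.mulLeftRight ℂ (X →L[ℂ] X) ((u⁻¹ : (X →L[ℂ] X)ˣ) : X →L[ℂ] X)
      ((u⁻¹ : (X →L[ℂ] X)ˣ) : X →L[ℂ] X)) (-T) = T * V T w ^ 2 := by
    have e1 : V T w = ((u⁻¹ : (X →L[ℂ] X)ˣ) : X →L[ℂ] X) := by
      unfold V
      rw [← hu, Ring.inverse_unit]
    have e2 := commute_V T w
    rw [← e1]
    simp only [neg_apply, map_neg, neg_neg, ContinuousLinearMap.mulLeftRight_apply]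
    rw [sq, ← mul_assoc, e2.eq]
  rw [e] at h3
  exact h3

theorem V_pow_hasDerivAt (T : X →L[ℂ] X) (w : ℂ) (hu : IsUnit (1 - w • T)) (k : ℕ) :
    HasDerivAt (fun w => V T w ^ k) ((k : ℂ) • (T * V T w ^ (k + 1))) w := by
  induction k with
  | zero => simpa using hasDerivAt_const w (1 : X →L[ℂ] X)
  | succ k ih =>
    have h1 := ih.mul (V_hasDerivAt T w hu)
    have e : ((k : ℂ) • (T * V T w ^ (k + 1))) * V T w + V T w ^ k * (T * V T w ^ 2) =
        (((k + 1 : ℕ) : ℂ)) • (T * V T w ^ (k + 1 + 1)) := by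
      have e2 : V T w ^ k * (T * V T w ^ 2) = T * V T w ^ (k + 1 + 1) := by
        rw [← mul_assoc, ← ((commute_V T w).pow_right k).eq, mul_assoc, ← pow_add]
      have e3 : ((k : ℂ) • (T * V T w ^ (k + 1))) * V T w = (k : ℂ) • (T * V T w ^ (k + 1 + 1)) := by
        rw [smul_mul_assoc, mul_assoc, ← pow_succ]
      rw [e2, e3]
      push_cast
      rw [add_smul, one_smul]
    rw [e] at h1
    have e4 : (fun w => V T w ^ (k + 1)) = (fun w => V T w ^ k) * V T := by
      funext w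
      exact pow_succ _ _
    rw [e4]
    exact h1

theorem iter (T : X →L[ℂ] X) (hu : ∀ w : ℂ, ‖w‖ < 1 → IsUnit (1 - w • T)) (n j : ℕ) :
    ∀ w : ℂ, ‖w‖ < 1 → iteratedDeriv j (fun w => V T w ^ n) w =
      ((n.ascFactorial j : ℕ) : ℂ) • (T ^ j * V T w ^ (n + j)) := by
  induction j with
  | zero =>
    intro w _
    rw [iteratedDeriv_zero]
    simp
  | succ j ih =>
    intro w hw
    rw [iteratedDeriv_succ]
    have h1 : iteratedDeriv j (fun w => V T w ^ n) =ᶠ[𝓝 w]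
        fun w => ((n.ascFactorial j : ℕ) : ℂ) • (T ^ j * V T w ^ (n + j)) := by
      have hopen : IsOpen {w : ℂ | ‖w‖ < 1} := isOpen_lt continuous_norm continuous_const
      filter_upwards [hopen.mem_nhds hw] with v hv
      exact ih v hv
    rw [h1.deriv_eq]
    have h2 := ((V_pow_hasDerivAt T w (hu w hw) (n + j)).const_mul (T ^ j)).const_smul
      ((n.ascFactorial j : ℕ) : ℂ)
    have h3 := h2.deriv
    refine Eq.trans ?_ (h3.trans ?_)
    · rfl
    · rw [Nat.ascFactorial_succ, mul_smul_comm, smul_smul, ← mul_assoc, ← pow_succ]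
      congr 1
      push_cast
      ring

theorem V_bound (T : X →L[ℂ] X) (hspec : ∀ z ∈ spectrum ℂ T, ‖z‖ ≤ 1) (w : ℂ) (hw : ‖w‖ < 1) :
    IsUnit (1 - w • T) := by
  by_cases h0 : w = 0
  · rw [h0, zero_smul, sub_zero]
    exact isUnit_one
  · have h1 : w⁻¹ ∉ spectrum ℂ T := by
      intro h
      have h2 := hspec _ h
      rw [norm_inv] at h2
      have h3 : 0 < ‖w‖ := norm_pos_iff.2 h0
      have := one_lt_inv_iff₀.2 ⟨h3, hw⟩
      linarith
    rw [spectrum.notMem_iff] at h1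
    have e : (1 : X →L[ℂ] X) - w • T = w • (algebraMap ℂ (X →L[ℂ] X) w⁻¹ - T) := by
      rw [smul_sub, Algebra.algebraMap_eq_smul_one, smul_smul, mul_inv_cancel₀ h0, one_smul]
    rw [e]
    exact h1.smul (Units.mk0 w h0)

theorem V_eq_resolvent (T : X →L[ℂ] X) (hspec : ∀ z ∈ spectrum ℂ T, ‖z‖ ≤ 1) (w : ℂ)
    (hw : ‖w‖ < 1) (h0 : w ≠ 0) : V T w = w⁻¹ • resolvent T w⁻¹ := by
  have hu := V_bound T hspec w hw
  have h1 : w⁻¹ ∉ spectrum ℂ T := by
    intro h
    have h2 := hspec _ h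
    rw [norm_inv] at h2
    have h3 : 0 < ‖w‖ := norm_pos_iff.2 h0
    have := one_lt_inv_iff₀.2 ⟨h3, hw⟩
    linarith
  rw [spectrum.notMem_iff] at h1
  have e : (1 : X →L[ℂ] X) - w • T = w • (algebraMap ℂ (X →L[ℂ] X) w⁻¹ - T) := by
    rw [smul_sub, Algebra.algebraMap_eq_smul_one, smul_smul, mul_inv_cancel₀ h0, one_smul]
  have h4 : (w⁻¹ • resolvent T w⁻¹) * (1 - w • T) = 1 := by
    rw [e, smul_mul_smul_comm, inv_mul_cancel₀ h0, one_smul]
    exact Ring.inverse_mul_cancel _ h1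
  have h5 : (1 - w • T) * V T w = 1 := Ring.mul_inverse_cancel _ hu
  calc V T w = (w⁻¹ • resolvent T w⁻¹) * (1 - w • T) * V T w := by rw [h4, one_mul]
    _ = _ := by rw [mul_assoc, h5, mul_one]

theorem central (n : ℕ) : 16 ^ (n + 1) ≤ 4 * (n + 1) * (Nat.centralBinom (n + 1)) ^ 2 := by
  induction n with
  | zero => simp [Nat.centralBinom]
  | succ n ih =>
    have h1 := Nat.succ_mul_centralBinom_succ (n + 1)
    set a := Nat.centralBinom (n + 1)
    set b := Nat.centralBinom (n + 1 + 1)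
    have h2 : (n + 2) ^ 2 * (16 ^ (n + 1 + 1)) ≤ (n + 2) ^ 2 * (4 * (n + 1 + 1) * b ^ 2) := by
      have e1 : (n + 2) ^ 2 * (4 * (n + 1 + 1) * b ^ 2) = 4 * (n + 2) * ((n + 1 + 1) * b) ^ 2 := by
        ring
      rw [e1, h1]
      have e2 : (n + 2) ^ 2 * 16 ^ (n + 1 + 1) = (n + 2) ^ 2 * 16 * 16 ^ (n + 1) := by ring
      rw [e2]
      calc (n + 2) ^ 2 * 16 * 16 ^ (n + 1) ≤ (n + 2) ^ 2 * 16 * (4 * (n + 1) * a ^ 2) :=
            Nat.mul_le_mul_left _ ih
        _ = (16 * (n + 2)) * ((4 * (n + 1) * (n + 2)) * a ^ 2) := by ring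
        _ ≤ (16 * (n + 2)) * ((2 * (n + 1) + 1) ^ 2 * a ^ 2) := by
            apply Nat.mul_le_mul_left
            apply Nat.mul_le_mul_right
            nlinarith
        _ = 4 * (n + 2) * (2 * (2 * (n + 1) + 1) * a) ^ 2 := by ring
    exact Nat.le_of_mul_le_mul_left h2 (by positivity)

theorem asc_ge (n : ℕ) (hn : 1 ≤ n) :
    (n.factorial : ℝ) * 4 ^ n ≤ 4 * Real.sqrt n * (n.ascFactorial n : ℝ) := by
  obtain ⟨m, rfl⟩ : ∃ m, n = m + 1 := ⟨n - 1, by omega⟩
  have h1 := Nat.factorial_mul_ascFactorial m (m + 1)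
  have h2 : (m + (m + 1)).factorial * (2 * (m + 1)) = (2 * (m + 1)).factorial := by
    have : 2 * (m + 1) = (m + (m + 1)) + 1 := by ring
    rw [this, Nat.factorial_succ]
    ring
  have h3 : (2 * (m + 1)).factorial = Nat.centralBinom (m + 1) * ((m + 1).factorial) ^ 2 := by
    have := Nat.choose_mul_factorial_mul_factorial (n := 2 * (m + 1)) (k := m + 1) (by omega)
    rw [show 2 * (m + 1) - (m + 1) = m + 1 by omega] at this
    rw [Nat.centralBinom_eq_two_mul_choose, ← this]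
    ring
  have h4 : 2 * (m + 1).ascFactorial (m + 1) =
      Nat.centralBinom (m + 1) * (m + 1).factorial := by
    have h5 : (m + 1).factorial * (2 * (m + 1).ascFactorial (m + 1)) =
        (m + 1).factorial * (Nat.centralBinom (m + 1) * (m + 1).factorial) := by
      calc (m + 1).factorial * (2 * (m + 1).ascFactorial (m + 1))
          = (m.factorial * (m + 1).ascFactorial (m + 1)) * (2 * (m + 1)) := by
            rw [Nat.factorial_succ]; ring
        _ = (2 * (m + 1)).factorial := by rw [h1, h2]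
        _ = _ := by rw [h3]; ring
    exact Nat.eq_of_mul_eq_mul_left (Nat.factorial_pos _) h5
  have h6 : (2 : ℝ) * ((m + 1).ascFactorial (m + 1) : ℝ) =
      (Nat.centralBinom (m + 1) : ℝ) * ((m + 1).factorial : ℝ) := by exact_mod_cast h4
  have h7 : ((16 : ℝ)) ^ (m + 1) ≤ 4 * ((m : ℝ) + 1) * (Nat.centralBinom (m + 1) : ℝ) ^ 2 := by
    exact_mod_cast central m
  have h8 : (4 : ℝ) ^ (m + 1) ≤ 2 * Real.sqrt ((m + 1 : ℕ) : ℝ) * (Nat.centralBinom (m + 1) : ℝ) := by
    apply le_of_sq_le_sq _ (by positivity)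
    rw [mul_pow, mul_pow, Real.sq_sqrt (by positivity), ← pow_mul, mul_comm (m + 1) 2, pow_mul]
    push_cast
    norm_num
    linarith
  calc ((m + 1).factorial : ℝ) * 4 ^ (m + 1)
      ≤ ((m + 1).factorial : ℝ) * (2 * Real.sqrt ((m + 1 : ℕ) : ℝ) *
          (Nat.centralBinom (m + 1) : ℝ)) := by gcongr
    _ = 2 * Real.sqrt ((m + 1 : ℕ) : ℝ) *
          ((Nat.centralBinom (m + 1) : ℝ) * ((m + 1).factorial : ℝ)) := by ring
    _ = _ := by rw [← h6]; ring

/-- the square root bound -/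
theorem sqrt_bound (T : X →L[ℂ] X) (M : ℝ) (hM : 0 ≤ M)
    (hspec : ∀ z ∈ spectrum ℂ T, ‖z‖ ≤ 1)
    (hres : ∀ k : ℕ, 1 ≤ k → ∀ z : ℂ, 1 < ‖z‖ → ‖(resolvent T z) ^ k‖ ≤ M / (‖z‖ - 1) ^ k)
    (n : ℕ) (hn : 1 ≤ n) : ‖T ^ n‖ ≤ 4 * M * Real.sqrt n := by
  have hu : ∀ w : ℂ, ‖w‖ < 1 → IsUnit (1 - w • T) := fun w hw => V_bound T hspec w hw
  have hd : DiffContOnCl ℂ (fun w => V T w ^ n) (Metric.ball 0 (1 / 2)) := by
    apply DifferentiableOn.diffContOnCl
    rw [closure_ball _ (by norm_num)]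
    intro w hw
    rw [mem_closedBall_zero_iff] at hw
    exact (V_pow_hasDerivAt T w (hu w (by linarith)) n).differentiableAt.differentiableWithinAt
  have hC : ∀ z ∈ Metric.sphere (0 : ℂ) (1 / 2), ‖(fun w => V T w ^ n) z‖ ≤ 2 ^ n * M := by
    intro w hw
    rw [mem_sphere_zero_iff_norm] at hw
    have h0 : w ≠ 0 := by
      intro h
      rw [h, norm_zero] at hw
      norm_num at hw
    have h1 : ‖w⁻¹‖ = 2 := by rw [norm_inv, hw]; norm_num
    show ‖V T w ^ n‖ ≤ _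
    rw [V_eq_resolvent T hspec w (by rw [hw]; norm_num) h0, smul_pow, norm_smul, norm_pow, h1]
    have h2 := hres n hn w⁻¹ (by rw [h1]; norm_num)
    rw [h1] at h2
    norm_num at h2
    exact mul_le_mul_of_nonneg_left h2 (by positivity)
  have h1 := Complex.norm_iteratedDeriv_le_of_forall_mem_sphere_norm_le n (by norm_num) hd hC
  rw [iter T hu n n 0 (by simp)] at h1
  have e0 : V T 0 = 1 := by
    unfold V
    rw [zero_smul, sub_zero, Ring.inverse_one]
  rw [e0, one_pow, mul_one, norm_smul, Complex.norm_natCast] at h1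
  have h2 : (n.factorial : ℝ) * (2 ^ n * M) / (1 / 2) ^ n = M * ((n.factorial : ℝ) * 4 ^ n) := by
    rw [one_div, inv_pow, div_inv_eq_mul, show (4 : ℝ) = 2 * 2 by norm_num, mul_pow]
    ring
  rw [h2] at h1
  have h3 := mul_le_mul_of_nonneg_left (asc_ge n hn) hM
  have h4 : 0 < (n.ascFactorial n : ℝ) := by
    have : 0 < n.ascFactorial n := by
      obtain ⟨m, rfl⟩ : ∃ m, n = m + 1 := ⟨n - 1, by omega⟩
      exact Nat.ascFactorial_pos m (m + 1)
    exact_mod_cast this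
  have h5 : (n.ascFactorial n : ℝ) * ‖T ^ n‖ ≤ (n.ascFactorial n : ℝ) * (4 * M * Real.sqrt n) := by
    calc _ ≤ M * ((n.factorial : ℝ) * 4 ^ n) := h1
      _ ≤ M * (4 * Real.sqrt n * (n.ascFactorial n : ℝ)) := h3
      _ = _ := by ring
  exact le_of_mul_le_mul_left h5 h4

end Y912.KB
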