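import Pool.Agent.Y912.KB.Sum

set_option autoImplicit false

namespace Y912.KB

open Finset H75R3 Filter

/-- the small rotation -/
noncomputable def en (n : ℕ) : ℂ := Complex.exp (Complex.I * ((Real.pi / (n : ℝ) : ℝ) : ℂ))

theorem en_pow (n k : ℕ) :
    en n ^ k = Complex.exp (Complex.I * ((Real.pi * k / (n : ℝ) : ℝ) : ℂ)) := by
  rw [en, ← Complex.exp_nat_mul]
  congr 1
  push_cast
  ring

theorem en_norm (n : ℕ) : ‖en n‖ = 1 := by
  rw [en, mul_comm]; exact Complex.norm_exp_ofReal_mul_I _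

theorem en_pow_self (n : ℕ) (hn : n ≠ 0) : en n ^ n = -1 := by
  rw [en_pow]
  have : (Real.pi * (n : ℝ) / (n : ℝ)) = Real.pi := by
    have : (n : ℝ) ≠ 0 := by exact_mod_cast hn
    field_simp
  rw [this, mul_comm, Complex.exp_pi_mul_I]

theorem en_pow_ne (n m : ℕ) (hm : m ≠ 0) (hmn : m ≤ n) : en n ^ m ≠ 1 := by
  intro h
  rw [en_pow, Complex.exp_eq_one_iff] at h
  obtain ⟨k, hk⟩ := h
  have hn0 : (0 : ℝ) < n := by
    have : 0 < n := by omega
    exact_mod_cast this
  have hm0 : (0 : ℝ) < m := by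
    have : 0 < m := by omega
    exact_mod_cast this
  have h1 := congrArg Complex.im hk
  have e1 : (Complex.I * ((Real.pi * m / (n : ℝ) : ℝ) : ℂ)).im = Real.pi * m / n := by
    rw [Complex.I_mul_im, Complex.ofReal_re]
  have e2 : ((k : ℂ) * (2 * Real.pi * Complex.I)).im = k * (2 * Real.pi) := by
    have : (k : ℂ) * (2 * Real.pi * Complex.I) = ((k * (2 * Real.pi) : ℝ) : ℂ) * Complex.I := by
      push_cast; ring
    rw [this]
    simp
  rw [e1, e2] at h1
  have hpi := Real.pi_pos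
  have h2 : (m : ℝ) / n = 2 * k := by
    have : Real.pi * (m / n) = Real.pi * (2 * k) := by rw [← mul_div_assoc, h1]; ring
    exact mul_left_cancel₀ hpi.ne' this
  have h3 : (0 : ℝ) < 2 * k := by rw [← h2]; positivity
  have h4 : (2 : ℝ) * k ≤ 1 := by
    rw [← h2, div_le_one hn0]
    exact_mod_cast hmn
  have h5 : (0 : ℤ) < k := by
    have : (0 : ℝ) < k := by linarith
    exact_mod_cast this
  have h6 : (1 : ℝ) ≤ k := by exact_mod_cast h5
  linarith

/-- the interior points -/
noncomputable def ip (j : ℕ) : ℂ := ((1 / ((j : ℝ) + 2) : ℝ) : ℂ)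

theorem ip_norm (j : ℕ) : ‖ip j‖ = 1 / ((j : ℝ) + 2) := by
  rw [ip, Complex.norm_real, Real.norm_eq_abs, abs_of_pos (by positivity)]

theorem ip_lt (j : ℕ) : ‖ip j‖ < 1 := by
  rw [ip_norm, div_lt_one (by positivity)]
  have : (0 : ℝ) ≤ j := Nat.cast_nonneg j
  linarith

theorem ip_inj {i j : ℕ} (h : ip i = ip j) : i = j := by
  have h1 : (1 / ((i : ℝ) + 2)) = 1 / ((j : ℝ) + 2) := by
    have := congrArg norm h
    rwa [ip_norm, ip_norm] at this
  have hi : (0 : ℝ) < (i : ℝ) + 2 := by positivity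
  have hj : (0 : ℝ) < (j : ℝ) + 2 := by positivity
  rw [div_eq_div_iff hi.ne' hj.ne'] at h1
  have : (i : ℝ) = j := by linarith
  exact_mod_cast this

/-- the frequency function: all `m`-th roots of unity, their slight rotations, and `e` points in
the open disc -/
noncomputable def muf (m e n : ℕ) : (Fin m × Bool) ⊕ Fin e → ℂ :=
  Sum.elim (fun i => zt m ^ (i.1 : ℕ) * (if i.2 then en n else 1)) (fun j => ip (j : ℕ))

theorem zt_norm (m : ℕ) (hm : m ≠ 0) : ‖zt m‖ = 1 := (zt_prim m hm).norm'_eq_one hm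

theorem muf_inl_norm (m e n : ℕ) (hm : m ≠ 0) (i : Fin m × Bool) :
    ‖muf m e n (Sum.inl i)‖ = 1 := by
  show ‖zt m ^ (i.1 : ℕ) * (if i.2 then en n else 1)‖ = 1
  rw [norm_mul, norm_pow, zt_norm m hm, one_pow, one_mul]
  split_ifs
  · exact en_norm n
  · simp

theorem rot_ne (m n : ℕ) (hm : m ≠ 0) (hmn : m ≤ n) (j j' : ℕ) :
    zt m ^ j ≠ zt m ^ j' * en n := by
  intro h
  have hz := zt_prim m hm
  have h1 := congrArg (fun x => x ^ m) h
  simp only [mul_pow] at h1
  rw [← pow_mul, ← pow_mul, mul_comm j, mul_comm j', pow_mul, pow_mul, hz.pow_eq_one, one_pow,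
    one_pow, one_mul] at h1
  exact en_pow_ne n m hm hmn h1.symm

noncomputable def fr (m e n : ℕ) (hm : m ≠ 0) (hmn : m ≤ n) : Freq ((Fin m × Bool) ⊕ Fin e) where
  mu := muf m e n
  inj := by
    have hz := zt_prim m hm
    have he0 : en n ≠ 0 := Complex.exp_ne_zero _
    rintro (⟨j, b⟩ | j) (⟨j', b'⟩ | j') h
    · have h' : zt m ^ (j : ℕ) * (if b then en n else 1) =
          zt m ^ (j' : ℕ) * (if b' then en n else 1) := h
      rcases b with _ | _ <;> rcases b' with _ | _
      · simp only [Bool.false_eq_true, if_false, mul_one] at h'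
        have := hz.pow_inj j.2 j'.2 h'
        rw [Fin.ext this]
      · exfalso
        simp only [Bool.false_eq_true, if_false, if_true, mul_one] at h'
        exact rot_ne m n hm hmn _ _ h'
      · exfalso
        simp only [Bool.false_eq_true, if_false, if_true, mul_one] at h'
        exact rot_ne m n hm hmn _ _ h'.symm
      · simp only [if_true] at h'
        have h2 := mul_right_cancel₀ he0 h'
        have := hz.pow_inj j.2 j'.2 h2
        rw [Fin.ext this]
    · exfalso
      have h1 := congrArg norm h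
      rw [muf_inl_norm m e n hm] at h1
      have h2 : ‖muf m e n (Sum.inr j')‖ < 1 := ip_lt _
      linarith
    · exfalso
      have h1 := congrArg norm h
      rw [muf_inl_norm m e n hm] at h1
      have h2 : ‖muf m e n (Sum.inr j)‖ < 1 := ip_lt _
      linarith
    · have : (j : ℕ) = j' := ip_inj h
      rw [Fin.ext this]
  le := by
    rintro (i | j)
    · exact (muf_inl_norm m e n hm i).le
    · exact (ip_lt _).le

/-- the coefficients -/
noncomputable def cof (m e n : ℕ) : (Fin m × Bool) ⊕ Fin e → ℂ :=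
  Sum.elim (fun i => (zt m)⁻¹ ^ ((i.1 : ℕ) * n) * (if i.2 then -1 else 1)) (fun _ => 0)

noncomputable def cvec (m e n : ℕ) (hm : m ≠ 0) (hmn : m ≤ n) : ES (fr m e n hm hmn) :=
  cof m e n

theorem norm_one_sub (n k : ℕ) : ‖1 - en n ^ k‖ ≤ Real.pi * k / n ∧ ‖1 - en n ^ k‖ ≤ 2 := by
  constructor
  · rw [norm_sub_rev, en_pow]
    refine (Real.norm_exp_I_mul_ofReal_sub_one_le).trans ?_
    rw [Real.norm_eq_abs, abs_of_nonneg (by positivity)]
  · refine (norm_sub_le _ _).trans ?_
    rw [norm_one, norm_pow, en_norm, one_pow]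
    norm_num

theorem moment_bound (m e n : ℕ) (hm : m ≠ 0) (hmn : m ^ 2 ≤ n) (hn : n ≠ 0) (k : ℕ) :
    ‖∑ i : (Fin m × Bool) ⊕ Fin e, cof m e n i * muf m e n i ^ k‖ ≤
      Real.pi * Wc m (n % m) k := by
  have hz := zt_prim m hm
  have hz0 : zt m ≠ 0 := hz.ne_zero hm
  set x : ℂ := zt m ^ k * (zt m)⁻¹ ^ n with hx
  have e1 : ∑ i : (Fin m × Bool) ⊕ Fin e, cof m e n i * muf m e n i ^ k =
      (1 - en n ^ k) * ∑ j ∈ range m, x ^ j := by
    rw [Fintype.sum_sum_type, Fintype.sum_prod_type, ← Fin.sum_univ_eq_sum_range (fun j => x ^ j),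
      Finset.mul_sum]
    have e2 : ∑ j : Fin e, cof m e n (Sum.inr j) * muf m e n (Sum.inr j) ^ k = 0 := by
      apply Finset.sum_eq_zero
      intro j _
      show (0 : ℂ) * _ = 0
      rw [zero_mul]
    rw [e2, add_zero]
    refine Finset.sum_congr rfl fun j _ => ?_
    rw [Fintype.sum_bool]
    simp only [cof, muf, Sum.elim_inl, if_true, Bool.false_eq_true, if_false, mul_one]
    have e3 : x ^ (j : ℕ) = (zt m)⁻¹ ^ ((j : ℕ) * n) * (zt m ^ (j : ℕ)) ^ k := by
      rw [hx, mul_pow, ← pow_mul, ← pow_mul, ← pow_mul, mul_comm k, mul_comm n, mul_comm]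
    rw [e3, mul_pow]
    ring
  rw [e1]
  have hmp : 0 < m := Nat.pos_of_ne_zero hm
  have hmR : (0 : ℝ) < m := by exact_mod_cast hmp
  have hnR : (0 : ℝ) < n := by
    have : 0 < n := Nat.pos_of_ne_zero hn
    exact_mod_cast this
  have hmn' : (m : ℝ) ^ 2 ≤ n := by exact_mod_cast hmn
  have hpi := Real.pi_gt_three
  by_cases hk : k % m = n % m
  · have hx1 : x = 1 := by
      have h1 : zt m ^ k = zt m ^ (k % m) := (pow_mod_orderOf (zt m) k).symm.trans (by
        rw [← hz.eq_orderOf])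
      have h2 : zt m ^ n = zt m ^ (n % m) := (pow_mod_orderOf (zt m) n).symm.trans (by
        rw [← hz.eq_orderOf])
      rw [hx, inv_pow, h1, h2, hk, mul_inv_cancel₀ (pow_ne_zero _ hz0)]
    rw [hx1]
    simp only [one_pow, Finset.sum_const, Finset.card_range, nsmul_eq_mul, mul_one]
    rw [norm_mul, Complex.norm_natCast]
    unfold Wc
    rw [if_pos hk]
    obtain ⟨h2, h3⟩ := norm_one_sub n k
    -- k < m * (l + 1)
    set l := k / m with hl
    have hkl : (k : ℝ) ≤ m * (l + 1) := by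
      have : k < m * (k / m + 1) := Nat.lt_mul_div_succ k hmp
      have h : (k : ℝ) ≤ ((m * (k / m + 1) : ℕ) : ℝ) := by exact_mod_cast this.le
      push_cast at h
      exact h
    have h4 : ‖1 - en n ^ k‖ * m ≤ Real.pi * (l + 1) := by
      calc ‖1 - en n ^ k‖ * m ≤ (Real.pi * k / n) * m := by gcongr
        _ ≤ (Real.pi * (m * (l + 1)) / n) * m := by gcongr
        _ = Real.pi * (l + 1) * (m ^ 2 / n) := by field_simp
        _ ≤ Real.pi * (l + 1) * 1 := by
            apply mul_le_mul_of_nonneg_left _ (by positivity)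
            rw [div_le_one hnR]
            exact hmn'
        _ = _ := mul_one _
    rcases le_total l m with h | h
    · rw [min_eq_left h]
      refine h4.trans ?_
      have : (0 : ℝ) ≤ l := Nat.cast_nonneg l
      nlinarith
    · rw [min_eq_right h]
      calc ‖1 - en n ^ k‖ * m ≤ 2 * m := by gcongr
        _ ≤ Real.pi * (2 * m + 1) := by nlinarith
  · have hx1 : x ≠ 1 := by
      intro h
      apply hk
      have h1 : zt m ^ k = zt m ^ n := by
        rw [hx, inv_pow] at h
        exact (mul_inv_eq_one₀ (pow_ne_zero _ hz0)).1 h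
      have h2 : zt m ^ k = zt m ^ (k % m) := (pow_mod_orderOf (zt m) k).symm.trans (by
        rw [← hz.eq_orderOf])
      have h3 : zt m ^ n = zt m ^ (n % m) := (pow_mod_orderOf (zt m) n).symm.trans (by
        rw [← hz.eq_orderOf])
      exact hz.pow_inj (Nat.mod_lt _ hmp) (Nat.mod_lt _ hmp) (by rw [← h2, ← h3, h1])
    have hxm : x ^ m = 1 := by
      rw [hx, mul_pow, ← pow_mul, ← pow_mul, mul_comm k, mul_comm n, pow_mul, pow_mul, inv_pow,
        hz.pow_eq_one]
      simp
    have h4 : (∑ j ∈ range m, x ^ j) * (x - 1) = 0 := by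
      rw [geom_sum_mul, hxm, sub_self]
    have h5 : ∑ j ∈ range m, x ^ j = 0 := by
      rcases mul_eq_zero.mp h4 with h | h
      · exact h
      · exact absurd (sub_eq_zero.mp h) hx1
    rw [h5, mul_zero, norm_zero]
    exact mul_nonneg Real.pi_pos.le (Wc_nonneg m _ k)

theorem cvec_norm_le (m e n : ℕ) (hm : m ≠ 0) (hmn1 : m ≤ n) (hmn : m ^ 2 ≤ n) :
    ‖cvec m e n hm hmn1‖ ≤ 7 * Real.pi := by
  have hn : n ≠ 0 := by omega
  apply norm_le_of _ _ _ (by positivity)
  intro w
  have hs : HasSum (fun k : ℕ => ∑ i : (Fin m × Bool) ⊕ Fin e, cof m e n i *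
      ((muf m e n i * w) ^ k / (Nat.factorial k : ℂ)))
      (ev (fr m e n hm hmn1) (cvec m e n hm hmn1) w) := by
    apply hasSum_sum
    intro i _
    apply HasSum.mul_left
    rw [Complex.exp_eq_exp_ℂ]
    exact NormedSpace.expSeries_div_hasSum_exp _
  have hb : ∀ N, ‖∑ k ∈ range N, ∑ i : (Fin m × Bool) ⊕ Fin e, cof m e n i *
      ((muf m e n i * w) ^ k / (Nat.factorial k : ℂ))‖ ≤ 7 * Real.pi * Real.exp ‖w‖ := by
    intro N
    refine (norm_sum_le _ _).trans ?_
    have h1 : ∀ k ∈ range N, ‖∑ i : (Fin m × Bool) ⊕ Fin e, cof m e n i *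
        ((muf m e n i * w) ^ k / (Nat.factorial k : ℂ))‖ ≤
        Real.pi * (Wc m (n % m) k * eb ‖w‖ k) := by
      intro k _
      have e1 : ∑ i : (Fin m × Bool) ⊕ Fin e, cof m e n i *
          ((muf m e n i * w) ^ k / (Nat.factorial k : ℂ)) =
          (∑ i : (Fin m × Bool) ⊕ Fin e, cof m e n i * muf m e n i ^ k) *
            (w ^ k / (Nat.factorial k : ℂ)) := by
        rw [Finset.sum_mul]
        refine Finset.sum_congr rfl fun i _ => ?_
        rw [mul_pow]; ring
      rw [e1, norm_mul]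
      have e2 : ‖w ^ k / (Nat.factorial k : ℂ)‖ = eb ‖w‖ k := by
        rw [norm_div, norm_pow, Complex.norm_natCast]; rfl
      rw [e2]
      calc _ ≤ (Real.pi * Wc m (n % m) k) * eb ‖w‖ k :=
            mul_le_mul_of_nonneg_right (moment_bound m e n hm hmn hn k)
              (eb_nonneg (norm_nonneg w) k)
        _ = _ := by ring
    refine (Finset.sum_le_sum h1).trans ?_
    rw [← Finset.mul_sum]
    have h2 := weighted_sum (norm_nonneg w) m (n % m) (Nat.pos_of_ne_zero hm)
      (Nat.mod_lt _ (Nat.pos_of_ne_zero hm)) N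
    calc Real.pi * ∑ k ∈ range N, Wc m (n % m) k * eb ‖w‖ k ≤ Real.pi * (7 * Real.exp ‖w‖) :=
          mul_le_mul_of_nonneg_left h2 Real.pi_pos.le
      _ = _ := by ring
  exact le_of_tendsto (hs.tendsto_sum_nat.norm) (Eventually.of_forall hb)

theorem lower_example (m e n : ℕ) (hm : m ≠ 0) (hmn1 : m ≤ n) (hmn : m ^ 2 ≤ n) :
    2 * (m : ℝ) / (7 * Real.pi) ≤ ‖TT (fr m e n hm hmn1) ^ n‖ := by
  have hn : n ≠ 0 := by omega
  have h1 := (TT (fr m e n hm hmn1) ^ n).le_opNorm (cvec m e n hm hmn1)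
  have h2 : 2 * (m : ℝ) ≤ ‖(TT (fr m e n hm hmn1) ^ n) (cvec m e n hm hmn1)‖ := by
    have h3 := ev_le (fr m e n hm hmn1) ((TT (fr m e n hm hmn1) ^ n) (cvec m e n hm hmn1)) 0
    rw [norm_zero, Real.exp_zero, mul_one] at h3
    refine le_trans (le_of_eq ?_) h3
    have h4 : ev (fr m e n hm hmn1) ((TT (fr m e n hm hmn1) ^ n) (cvec m e n hm hmn1)) 0 =
        ((2 * m : ℝ) : ℂ) := by
      rw [ev, TT, dg_pow]
      simp only [mul_zero, Complex.exp_zero, mul_one]
      refine (Fintype.sum_sum_type _).trans ?_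
      have hz := zt_prim m hm
      have hz0 : zt m ≠ 0 := hz.ne_zero hm
      have h5 : ∀ i : Fin m × Bool,
          ((dg (fr m e n hm hmn1) (fun i => (fr m e n hm hmn1).mu i ^ n) (cvec m e n hm hmn1) :
            (Fin m × Bool) ⊕ Fin e → ℂ) (Sum.inl i)) = 1 := by
        rintro ⟨j, b⟩
        rw [dg_apply]
        show (zt m ^ (j : ℕ) * (if b then en n else 1)) ^ n *
          ((zt m)⁻¹ ^ ((j : ℕ) * n) * (if b then -1 else 1)) = 1
        have e1 : (zt m ^ (j : ℕ)) ^ n * (zt m)⁻¹ ^ ((j : ℕ) * n) = 1 := by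
          rw [← pow_mul, inv_pow, mul_inv_cancel₀ (pow_ne_zero _ hz0)]
        rcases b with _ | _
        · simp only [Bool.false_eq_true, if_false, mul_one]
          exact e1
        · simp only [if_true, mul_pow, en_pow_self n hn]
          linear_combination e1
      have h6 : ∀ i : Fin e,
          ((dg (fr m e n hm hmn1) (fun i => (fr m e n hm hmn1).mu i ^ n) (cvec m e n hm hmn1) :
            (Fin m × Bool) ⊕ Fin e → ℂ) (Sum.inr i)) = 0 := by
        intro i
        rw [dg_apply]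
        show _ * (0 : ℂ) = 0
        rw [mul_zero]
      refine (congrArg₂ (· + ·) (Finset.sum_congr rfl fun i _ => h5 i)
        (Finset.sum_congr rfl fun i _ => h6 i)).trans ?_
      simp only [Finset.sum_const, Finset.card_univ, Fintype.card_prod, Fintype.card_fin,
        Fintype.card_bool, nsmul_eq_mul, mul_one, smul_zero, add_zero]
      push_cast
      ring
    rw [h4, Complex.norm_real, Real.norm_eq_abs, abs_of_nonneg (by positivity)]
  have h6 := cvec_norm_le m e n hm hmn1 hmn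
  rw [div_le_iff₀ (by positivity)]
  calc 2 * (m : ℝ) ≤ ‖TT (fr m e n hm hmn1) ^ n‖ * ‖cvec m e n hm hmn1‖ := h2.trans h1
    _ ≤ _ := mul_le_mul_of_nonneg_left h6 (norm_nonneg _)

theorem finrank_ES (m e n : ℕ) (hm : m ≠ 0) (hmn1 : m ≤ n) :
    Module.finrank ℂ (ES (fr m e n hm hmn1)) = 2 * m + e := by
  have : Module.finrank ℂ ((Fin m × Bool) ⊕ Fin e → ℂ) = 2 * m + e := by
    rw [Module.finrank_fintype_fun_eq_card, Fintype.card_sum, Fintype.card_prod, Fintype.card_fin,
      Fintype.card_bool, Fintype.card_fin, mul_comm]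
  exact this

end Y912.KB
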