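import Pool.Agent.H75R3.ExpExample

set_option autoImplicit false

namespace Y912.KB

open Finset H75R3

theorem shift_sum_le (g : ℕ → ℝ) (hg : ∀ k, 0 ≤ g k) (s n : ℕ) :
    ∑ j ∈ range n, g (s + j) ≤ ∑ j ∈ range (s + n), g j := by
  rw [Finset.sum_range_add]
  have := Finset.sum_nonneg (s := range s) fun k _ => hg k
  linarith

theorem weighted_sum_blocks {R : ℝ} (hR : 0 ≤ R) (m : ℕ) (hm : 1 ≤ m) (c L : ℕ) :
    ∑ l ∈ range L, ((min l m : ℕ) : ℝ) * eb R (m * l + c) ≤ 3 * Real.exp R := by
  have h1 : ∀ l ∈ range L, ((min l m : ℕ) : ℝ) * eb R (m * l + c) ≤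
      (3 / 2) * (∑ t ∈ range m, (if l = 0 then 0 else eb R (m * l + c - t)) +
        ∑ t ∈ range m, eb R (c + (m * l + t))) := by
    intro l _
    rcases Nat.eq_zero_or_pos l with h0 | h0
    · subst h0
      simp only [Nat.zero_min, Nat.cast_zero, zero_mul, if_true, Finset.sum_const_zero, zero_add]
      exact mul_nonneg (by norm_num) (Finset.sum_nonneg fun t _ => eb_nonneg hR _)
    · have hW1 : min l m ≤ m := min_le_right _ _
      have hW2 : min l m ≤ l := min_le_left _ _
      have hk0 : 1 ≤ m * l := Nat.mul_pos hm h0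
      have hk : 1 ≤ m * l + c := by omega
      have hWsq : (min l m) ^ 2 ≤ m * l + c := by
        have : (min l m) ^ 2 ≤ m * l := by
          rw [sq]; exact Nat.mul_le_mul hW1 hW2
        omega
      have hWk : min l m ≤ m * l + c :=
        le_trans hW2 (le_trans (Nat.le_mul_of_pos_left l hm) (Nat.le_add_right _ _))
      refine (weight_term hR (m * l + c) (min l m) hk hWsq hWk).trans ?_
      have hl0 : l ≠ 0 := by omega
      simp only [hl0, if_false]
      apply mul_le_mul_of_nonneg_left _ (by norm_num)
      apply add_le_add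
      · exact Finset.sum_le_sum_of_subset_of_nonneg (Finset.range_mono hW1)
          (fun t _ _ => eb_nonneg hR _)
      · have e : ∀ t, m * l + c + t = c + (m * l + t) := fun t => by omega
        simp only [e]
        exact Finset.sum_le_sum_of_subset_of_nonneg (Finset.range_mono hW1)
          (fun t _ _ => eb_nonneg hR _)
  refine (Finset.sum_le_sum h1).trans ?_
  rw [← Finset.mul_sum, Finset.sum_add_distrib, block_sum (fun j => eb R (c + j)) m L]
  have h2 : ∑ l ∈ range L, ∑ t ∈ range m, (if l = 0 then 0 else eb R (m * l + c - t)) ≤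
      Real.exp R := by
    rcases L with _ | L
    · simp; positivity
    · rw [Finset.sum_range_succ']
      simp only [if_true, Finset.sum_const_zero, add_zero, Nat.succ_ne_zero, if_false]
      have h3 : ∀ l ∈ range L, ∑ t ∈ range m, eb R (m * (l + 1) + c - t) =
          ∑ t ∈ range m, (fun j => eb R ((c + 1) + j)) (m * l + t) := by
        intro l _
        rw [← Finset.sum_range_reflect]
        refine Finset.sum_congr rfl fun t ht => ?_
        have := Finset.mem_range.mp ht
        have e : m * (l + 1) + c - (m - 1 - t) = (c + 1) + (m * l + t) := by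
          rw [Nat.mul_succ]; omega
        rw [e]
      rw [Finset.sum_congr rfl h3, block_sum (fun j => eb R ((c + 1) + j)) m L]
      exact (shift_sum_le (eb R) (eb_nonneg hR) (c + 1) (m * L)).trans (sum_eb_le hR _)
  have h4 : ∑ j ∈ range (m * L), eb R (c + j) ≤ Real.exp R :=
    (shift_sum_le (eb R) (eb_nonneg hR) c (m * L)).trans (sum_eb_le hR _)
  linarith

/-- the weights on a residue class -/
noncomputable def Wc (m c k : ℕ) : ℝ :=
  if k % m = c then 2 * ((min (k / m) m : ℕ) : ℝ) + 1 else 0

theorem Wc_nonneg (m c k : ℕ) : 0 ≤ Wc m c k := by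
  unfold Wc; split_ifs <;> positivity

theorem weighted_sum {R : ℝ} (hR : 0 ≤ R) (m c : ℕ) (hm : 1 ≤ m) (hc : c < m) (n : ℕ) :
    ∑ k ∈ range n, Wc m c k * eb R k ≤ 7 * Real.exp R := by
  have h1 : ∑ k ∈ range n, Wc m c k * eb R k ≤ ∑ k ∈ range (m * n), Wc m c k * eb R k := by
    apply Finset.sum_le_sum_of_subset_of_nonneg
    · exact Finset.range_mono (Nat.le_mul_of_pos_left n hm)
    · intro k _ _; exact mul_nonneg (Wc_nonneg m c k) (eb_nonneg hR k)
  refine h1.trans ?_
  have h0 : ∀ k ∈ range (m * n), Wc m c k * eb R k ≤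
      2 * ((if k % m = c then ((min (k / m) m : ℕ) : ℝ) else 0) * eb R k) + eb R k := by
    intro k _
    have := eb_nonneg hR k
    unfold Wc
    split_ifs
    · apply le_of_eq; ring
    · linarith
  refine (Finset.sum_le_sum h0).trans ?_
  rw [Finset.sum_add_distrib, ← Finset.mul_sum]
  have h5 := sum_eb_le hR (m * n)
  have h6 : ∑ k ∈ range (m * n), (if k % m = c then ((min (k / m) m : ℕ) : ℝ) else 0) * eb R k
      ≤ 3 * Real.exp R := by
    rw [← block_sum (fun k => (if k % m = c then ((min (k / m) m : ℕ) : ℝ) else 0) * eb R k) m n]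
    refine le_trans (le_of_eq ?_) (weighted_sum_blocks hR m hm c n)
    refine Finset.sum_congr rfl fun l _ => ?_
    rw [Finset.sum_eq_single c]
    · have e1 : (m * l + c) % m = c := by
        rw [Nat.mul_add_mod, Nat.mod_eq_of_lt hc]
      have e2 : (m * l + c) / m = l := by
        rw [Nat.mul_add_div (by omega), Nat.div_eq_of_lt hc, add_zero]
      simp only [e1, e2, if_true]
    · intro t ht htc
      have htm := Finset.mem_range.mp ht
      have : ¬ (m * l + t) % m = c := by
        rw [Nat.mul_add_mod, Nat.mod_eq_of_lt htm]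
        exact htc
      simp only [this, if_false, zero_mul]
    · intro h; exact absurd (Finset.mem_range.mpr hc) h
  linarith

end Y912.KB
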